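import Mathlib
import Pool.Agent.Q182.W1
import Pool.Agent.Q182.LadderSuitable

/-!
# A subgroup of `G*(ω)`, `τ = ω₁`, without a suitable set
-/

namespace Pool.Agent.Results.MP_7b4824_gt.NoSuitableSet

open Set Cardinal Q182

/-- There are a family `(G α)_{α < ω₁}` of non-trivial (abelian) groups and a subgroup `H` of the
product, consisting of elements of countable support, such that `H`, with the topology induced
from `G*`, has no suitable set. -/
theorem result :
    ∃ (G : W1 → Type) (_ : ∀ α, AddCommGroup (G α)), (∀ α, Nontrivial (G α)) ∧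
      ∃ H : AddSubgroup (∀ α, G α), (∀ x ∈ H, {α | x α ≠ 0}.Countable) ∧
        ¬ ∃ S : Set H, @IsSuitable H _ (TopologicalSpace.induced Subtype.val (starTop G)) S := by
  refine ⟨fun _ => ZMod 2, fun _ => inferInstance, fun _ => inferInstance, Ladder.HG W1,
    fun x hx => Ladder.countable_support hx, ?_⟩
  rintro ⟨S, hS⟩
  have hc : ∀ A : Set W1, #A < #W1 ↔ A.Countable := by
    intro A
    rw [W1.mk_eq, ← succ_aleph0, Order.lt_succ_iff, ← le_aleph0_iff_set_countable]
  refine Ladder.not_suitable (T := W1) ?_ ?_ ?_ S hS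
  · intro a
    exact (hc _).2 (W1.countable_Iic a)
  · intro A hA
    obtain ⟨b, hb⟩ := W1.bddAbove_of_countable ((hc A).1 hA)
    obtain ⟨b', hb'⟩ := exists_gt b
    exact ⟨b', fun a ha => (hb a ha).trans_lt hb'⟩
  · rw [W1.mk_eq, ← succ_aleph0]
    exact Order.lt_succ _

end Pool.Agent.Results.MP_7b4824_gt.NoSuitableSet
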